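import Pool.Agent.Lib.MP_895a4b_co.Core

namespace Pool.Agent.Results.MP_895a4b_co.LightVertices

/-- Let every edge `uv` of `G₁` satisfy `d(u) + d(v) ≤ θ`, and let `θ Δ(G₂) < 2 n`. Then one
bijection `f` has the following property: a vertex `u` lying on `c(u) ≥ 2` common edges has
degree above `θ / 2` in `G₁` and satisfies `c(u) n ≤ 2 d(u) Δ(G₂)`. -/
theorem result (n θ : ℕ) (G₁ G₂ : SimpleGraph (Fin n)) [DecidableRel G₁.Adj] [DecidableRel G₂.Adj]
    (hθ : ∀ u v, G₁.Adj u v → G₁.degree u + G₁.degree v ≤ θ)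
    (hn : θ * G₂.maxDegree < 2 * n) :
    ∃ f : Fin n ≃ Fin n, ∀ u : Fin n,
      (Finset.univ.filter fun v => G₁.Adj u v ∧ G₂.Adj (f u) (f v)).card ≤ 1 ∨
      (θ < 2 * G₁.degree u ∧
        (Finset.univ.filter fun v => G₁.Adj u v ∧ G₂.Adj (f u) (f v)).card * n
          ≤ 2 * G₁.degree u * G₂.maxDegree) := by
  have h := Pool.Agent.Lib.MP_895a4b_co.main G₂ hθ (by simpa using hn)
  simpa [Pool.Agent.Lib.MP_895a4b_co.lk] using h

end Pool.Agent.Results.MP_895a4b_co.LightVertices
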