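import Pool.Agent.Lib.MP_895a4b_co.NibPar

namespace Pool.Agent.Results.MP_895a4b_co.NearPacking

/-- There is an absolute constant `c > 0` such that: if every edge `uv` of `G₁` has
`d(u) + d(v) ≤ θ`, if `θ Δ(G₂) ≤ 2.04 n`, and if `θ` and `Δ(G₂)` are at most `c n / log n`,
then `G₁` and `G₂` have a near packing of degree one. -/
theorem result : ∃ c : ℝ, 0 < c ∧ ∀ (n θ : ℕ) (G₁ G₂ : SimpleGraph (Fin n))
    [DecidableRel G₁.Adj] [DecidableRel G₂.Adj],
    (∀ u v, G₁.Adj u v → G₁.degree u + G₁.degree v ≤ θ) →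
    25 * (θ * G₂.maxDegree) ≤ 51 * n →
    (θ : ℝ) * Real.log n ≤ c * n → (G₂.maxDegree : ℝ) * Real.log n ≤ c * n →
    ∃ f : Fin n ≃ Fin n, ∀ u : Fin n,
      (Finset.univ.filter fun v => G₁.Adj u v ∧ G₂.Adj (f u) (f v)).card ≤ 1 := by
  obtain ⟨c, hc, h⟩ := Nib67.near
  refine ⟨c, hc, fun n θ G₁ G₂ _ _ h1 h2 h3 h4 => ?_⟩
  by_cases hE : ∃ p q, G₂.Adj p q
  · obtain ⟨p, q, hpq⟩ := hE
    have h5 : 1 ≤ G₂.maxDegree :=
      le_trans ((G₂.degree_pos_iff_exists_adj p).2 ⟨q, hpq⟩) (G₂.degree_le_maxDegree p)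
    have h6 : 2 ≤ Fintype.card (Fin n) := Fintype.one_lt_card_iff.2 ⟨p, q, hpq.ne⟩
    have h7 : (25 : ℝ) * (θ * G₂.maxDegree) ≤ 51 * n := by exact_mod_cast h2
    obtain ⟨g, hg⟩ := h (Fin n) (Fin n) (fun u => G₁.neighborFinset u)
      (fun p => G₂.neighborFinset p) θ G₂.maxDegree rfl
      (fun u v => by simpa using fun h => h.symm) (fun u => by simp)
      (fun u v => by simpa using fun h => h.symm)
      (fun u v hv => by exact_mod_cast h1 u v (by simpa using hv))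
      (fun p => by exact_mod_cast G₂.degree_le_maxDegree p)
      (by rw [Fintype.card_fin]; linarith) (by rwa [Fintype.card_fin])
      (by rwa [Fintype.card_fin]) (by exact_mod_cast h5) h6
    refine ⟨g, fun u => le_trans (Finset.card_le_card fun v hv => ?_) (hg u)⟩
    simpa using hv
  · refine ⟨Equiv.refl _, fun u => ?_⟩
    rw [Finset.filter_eq_empty_iff.2 fun v _ hv => hE ⟨_, _, hv.2⟩]
    simp

end Pool.Agent.Results.MP_895a4b_co.NearPacking
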